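import Mathlib
import Pool.Agent.TCub.Final

namespace Pool.Agent.Results.MP_4483ed_nt.DistinctValues

/-- For every `ε > 0` and all large `X` at least `X^(5/6-ε)` integers `n ≤ X` are sums of three
cubes of positive integers and have at most two prime factors, counted with multiplicity, each of
them at least `X^(7/50)`. -/
theorem result :
    ∀ ε : ℝ, 0 < ε → ∃ X₀ : ℝ, ∀ X : ℝ, X₀ ≤ X →
      X ^ (5 / 6 - ε) ≤ (Set.ncard {n : ℕ | (n:ℝ) ≤ X ∧ ArithmeticFunction.cardFactors n ≤ 2 ∧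
        (∀ p : ℕ, p.Prime → p ∣ n → X ^ (7 / 50 : ℝ) ≤ p) ∧
        ∃ k l m : ℕ, 1 ≤ k ∧ 1 ≤ l ∧ 1 ≤ m ∧ n = k ^ 3 + l ^ 3 + m ^ 3} : ℝ) :=
  Pool.Agent.TCub.zBfin

end Pool.Agent.Results.MP_4483ed_nt.DistinctValues
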