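import Mathlib
import Pool.Agent.TCub.Final

namespace Pool.Agent.Results.MP_4483ed_nt.TwoPrimeFactors

/-- There are `≫ X / log X` ordered triples of positive integers `(k,l,m)` with
`k³+l³+m³ ≤ X` such that `k³+l³+m³` has at most two prime factors, counted with multiplicity,
each of them at least `X^(7/50)`.  The order of magnitude is that of the conjecture on the primes
`k³+l³+m³`. -/
theorem result :
    ∃ c : ℝ, 0 < c ∧ ∃ X₀ : ℝ, ∀ X : ℝ, X₀ ≤ X →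
      c * X / Real.log X ≤ (Set.ncard {t : ℕ × ℕ × ℕ | 1 ≤ t.1 ∧ 1 ≤ t.2.1 ∧ 1 ≤ t.2.2 ∧
        ((t.1 ^ 3 + t.2.1 ^ 3 + t.2.2 ^ 3 : ℕ) : ℝ) ≤ X ∧
        ArithmeticFunction.cardFactors (t.1 ^ 3 + t.2.1 ^ 3 + t.2.2 ^ 3) ≤ 2 ∧
        ∀ p : ℕ, p.Prime → p ∣ t.1 ^ 3 + t.2.1 ^ 3 + t.2.2 ^ 3 → X ^ (7 / 50 : ℝ) ≤ p} : ℝ) :=
  Pool.Agent.TCub.zT1s

end Pool.Agent.Results.MP_4483ed_nt.TwoPrimeFactors
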